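import Mathlib
import Pool.Agent.H530R2.Hit
import Pool.Agent.H530R2.Rat5

/-!
# Explicit hitting sets for formulas with arbitrary binary polynomial gates of bounded sharing

Every gate computes a polynomial `h(f, g)` whose coefficients may depend on the variables in a bag
`S` of at most `c` variables; the bag contains all variables which `f` and `g` have in common, and
bags are inherited as in a tree decomposition. Multiplications are unrestricted.
-/

namespace Pool.Agent.Results.MP_c2aa42_lc.BoundedSharing

open MvPolynomial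

/-- `Shared c T f`: the polynomial `f` is computed below the bag `T` by a formula with
* constants and variables at the leaves,
* products `f * g`, whose factors may share any variables,
* gates `h(f, g)`, where `h` is any bivariate polynomial with coefficients in `ℂ[x_i : i ∈ S]`,
  `S` being a bag of at most `c` variables which contains every variable occurring in both `f` and
  `g`, and every variable of the previous bag `T` occurring in `f` or `g`; the arguments `f` and
  `g` are computed below the bag `S`. -/
inductive Shared {n : ℕ} (c : ℕ) : Finset (Fin n) → MvPolynomial (Fin n) ℂ → Prop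
  | const (T : Finset (Fin n)) (r : ℂ) : Shared c T (C r)
  | var (T : Finset (Fin n)) (i : Fin n) : Shared c T (X i)
  | mul {T : Finset (Fin n)} {f g : MvPolynomial (Fin n) ℂ} :
      Shared c T f → Shared c T g → Shared c T (f * g)
  | gate {T : Finset (Fin n)} (S : Finset (Fin n)) {f g : MvPolynomial (Fin n) ℂ}
      (h : MvPolynomial (Fin 2) (supported ℂ (S : Set (Fin n)))) :
      S.card ≤ c → f.vars ∩ g.vars ⊆ S → T ∩ (f.vars ∪ g.vars) ⊆ S →
      Shared c S f → Shared c S g → Shared c T (aeval ![f, g] h)

/-- The point with seeds `y, z ∈ ℕ^m`: its `i`-th coordinate is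
`∑_l y_l ∏_{k ≠ i} (z_l - k)` (the Shpilka–Volkovich generator with nodes `0, …, n-1`). -/
def point (n m : ℕ) (y z : Fin m → ℕ) : Fin n → ℤ :=
  fun i => ∑ l : Fin m, (y l : ℤ) * ∏ k ∈ Finset.univ.erase i, ((z l : ℤ) - (k.val : ℤ))

/-- The explicit set of all points with seeds `y ∈ {0,…,D}^m`, `z ∈ {0,…,nD}^m`. -/
def points (n m D : ℕ) : Finset (Fin n → ℤ) :=
  ((Fintype.piFinset fun _ : Fin m => Finset.range (D + 1)) ×ˢ
    (Fintype.piFinset fun _ : Fin m => Finset.range (n * D + 1))).image
    fun yz => point n m yz.1 yz.2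

open Pool.Agent.H530R2 in
theorem hit_of_shared {n c : ℕ} {K : Type*} [Field K] [Algebra ℂ K]
    (G : GenPt (fun i : Fin n => ((i.val : ℕ) : ℂ)) (c + 1) K) {T : Finset (Fin n)}
    {f : MvPolynomial (Fin n) ℂ} (h : Shared c T f) (hT : T.card ≤ c) :
    Hit (fun i : Fin n => ((i.val : ℕ) : ℂ)) (c + 1) T f := by
  induction h with
  | const T r => exact Hit.const T r
  | var T i => exact Hit.var G (nodes_injective n) (Nat.lt_succ_of_le hT) i
  | mul _ _ hf hg =>
    exact Hit.mul G (nodes_injective n) (Nat.lt_succ_of_le hT) (hf hT) (hg hT)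
  | gate S h hS h1 h2 _ _ hf hg =>
    exact Hit.gate G (nodes_injective n) (Nat.lt_succ_of_le hS) (hf hS) (hg hS) h1 h2 h

/-- For all `c, n, D` the explicit set `points n (c + 1) D ⊆ ℤ^n` has at most
`((D+1)(nD+1))^(c+1)` elements, with coordinates of polynomial bit length, and hits every nonzero
polynomial of total degree at most `D` in `n` variables which divides a nonzero polynomial computed
by a formula with arbitrary binary polynomial gates whose bags have at most `c` variables (the
outermost bag being empty). -/
theorem result (c n D : ℕ) :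
    (points n (c + 1) D).card ≤ ((D + 1) * (n * D + 1)) ^ (c + 1) ∧
    (∀ p ∈ points n (c + 1) D, ∀ i,
      |p i| ≤ (((c + 1) * D * (n * D + n) ^ (n - 1) : ℕ) : ℤ)) ∧
    ∀ f g : MvPolynomial (Fin n) ℂ, Shared c ∅ g → g ≠ 0 → f ∣ g → f.totalDegree ≤ D →
      ∃ p ∈ points n (c + 1) D, MvPolynomial.eval (fun i => (p i : ℂ)) f ≠ 0 := by
  refine ⟨?_, ?_, ?_⟩
  · exact Pool.Agent.H530R2.hitSet_card n _ D
  · exact fun p hp i => Pool.Agent.H530R2.hitSet_bound n _ D p hp i
  · intro f g hg hg0 hdvd hD
    refine Pool.Agent.H530R2.exists_hit n (c + 1) D f hD ?_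
    intro hf
    apply hg0
    obtain ⟨G⟩ := Pool.Agent.H530R2.exists_genPt (fun i : Fin n => ((i.val : ℕ) : ℂ))
      (Pool.Agent.H530R2.nodes_injective n) (c + 1) (Nat.succ_pos c)
      (FractionRing (MvPolynomial (Fin (c + 1) ⊕ Fin (c + 1)) ℂ))
    exact (hit_of_shared G hg (by simp)).eq_zero G
      (Pool.Agent.H530R2.nodes_injective n) (by simp) (Ideal.mem_of_dvd _ hdvd hf)

end Pool.Agent.Results.MP_c2aa42_lc.BoundedSharing
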