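import Mathlib
import Pool.Agent.H530R2.Hit
import Pool.Agent.H530R2.SumRO2

/-!
# Polynomial-size explicit hitting sets for sums of constantly many constant-width
read-once oblivious algebraic branching programs, each in its own unknown variable order
(and for arbitrary products of such sums).
-/

namespace Pool.Agent.Results.MP_c2aa42_lc.ConstWidthROABP

open MvPolynomial

/-- `f` is computed by a read-once oblivious algebraic branching program (ROABP) of width `w`
that reads the variables in the order `σ 0, σ 1, …, σ (n-1)`: `f` is the bilinear form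
`u ⬝ (M 0)(x_{σ 0}) ⬝ (M 1)(x_{σ 1}) ⋯ (M (n-1))(x_{σ (n-1)}) ⬝ v`, where `M k` is a `w × w` matrix
of univariate polynomials of arbitrary degree and `u`, `v` are constant vectors. -/
def IsROABP {n : ℕ} (w : ℕ) (σ : Equiv.Perm (Fin n)) (f : MvPolynomial (Fin n) ℂ) : Prop :=
  ∃ (M : Fin n → Matrix (Fin w) (Fin w) (Polynomial ℂ)) (u v : Fin w → ℂ),
    f = ∑ a, ∑ b, C (u a) *
      (List.ofFn fun k : Fin n =>
        (M k).map (Polynomial.aeval (X (σ k) : MvPolynomial (Fin n) ℂ))).prod a b * C (v b)

/-- `f` is a sum of `c` polynomials, each computed by a ROABP of width `w` in its own order. -/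
def IsSumROABP {n : ℕ} (c w : ℕ) (f : MvPolynomial (Fin n) ℂ) : Prop :=
  ∃ g : Fin c → MvPolynomial (Fin n) ℂ, (∀ i, ∃ σ : Equiv.Perm (Fin n), IsROABP w σ (g i)) ∧
    f = ∑ i, g i

/-- `cost w 0 = 0` and `cost w (s + 1) = cost w s + w (w - s) + 2`; in particular
`cost w w = w²(w + 1)/2 + 2w`. -/
def cost (w : ℕ) : ℕ → ℕ
  | 0 => 0
  | s + 1 => cost w s + w * (w - s) + 2

/-- The number of seed pairs used for sums of `c` programs of width `w`:
`seeds 0 w = 0` and `seeds (c + 1) w = cost w w + 1 + seeds c (w (w + 1))`; in particular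
`seeds 1 w = w²(w + 1)/2 + 2w + 1`. -/
def seeds : ℕ → ℕ → ℕ
  | 0, _ => 0
  | c + 1, w => cost w w + 1 + seeds c (w * (w + 1))

/-- The point with seeds `y, z ∈ ℕ^m`: its `i`-th coordinate is
`∑_l y_l ∏_{k ≠ i} (z_l - k)` (the Shpilka–Volkovich generator with nodes `0, …, n-1`). -/
def point (n m : ℕ) (y z : Fin m → ℕ) : Fin n → ℤ :=
  fun i => ∑ l : Fin m, (y l : ℤ) * ∏ k ∈ Finset.univ.erase i, ((z l : ℤ) - (k.val : ℤ))

/-- The explicit set of all points with seeds `y ∈ {0,…,D}^m`, `z ∈ {0,…,nD}^m`. -/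
def points (n m D : ℕ) : Finset (Fin n → ℤ) :=
  ((Fintype.piFinset fun _ : Fin m => Finset.range (D + 1)) ×ˢ
    (Fintype.piFinset fun _ : Fin m => Finset.range (n * D + 1))).image
    fun yz => point n m yz.1 yz.2

open Pool.Agent.H530R2 in
theorem isRO_of_isROABP {n w : ℕ} {σ : Equiv.Perm (Fin n)} {f : MvPolynomial (Fin n) ℂ}
    (h : IsROABP w σ f) : IsRO σ w Set.univ f := by
  obtain ⟨M, u, v, rfl⟩ := h
  refine ⟨fun i => M (σ.symm i), u, v, fun i hi => absurd (Set.mem_univ i) hi, ?_⟩
  have key : ∀ m : ℕ, ∀ hm : m ≤ n,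
      (List.ofFn fun k : Fin m => (M (Fin.castLE hm k)).map
        (Polynomial.aeval (X (σ (Fin.castLE hm k)) : MvPolynomial (Fin n) ℂ))).prod =
      Pr (pv σ) (toSeq σ fun i => M (σ.symm i)) 0 m := by
    intro m
    induction m with
    | zero => intro _; simp [Pr_zero]
    | succ m ih =>
      intro hm
      rw [List.ofFn_succ', List.concat_eq_append, List.prod_append, List.prod_singleton, Pr_succ,
        ← ih (by omega)]
      congr 1
      unfold Nh toSeq
      rw [dif_pos (show 0 + m < n by omega)]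
      have h1 : (⟨0 + m, by omega⟩ : Fin n) = Fin.castLE hm (Fin.last m) := by
        apply Fin.ext
        simp
      rw [h1]
      simp only [Equiv.symm_apply_apply]
      have h2 : (pv σ (0 + m) : MvPolynomial (Fin n) ℂ) = X (σ (Fin.castLE hm (Fin.last m))) := by
        rw [pv_mem_supported σ (0 + m) (by omega), h1]
      rw [h2]
  have key' := key n le_rfl
  unfold roVal
  rw [← key']
  simp only [Fin.castLE_rfl, id, dotProduct, Matrix.mulVec, emb, MvPolynomial.algebraMap_eq,
    Finset.mul_sum, mul_assoc]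

theorem cost_eq (w s : ℕ) : cost w s = Pool.Agent.H530R2.lcost w s := by
  induction s with
  | zero => rfl
  | succ s ih => simp only [cost, Pool.Agent.H530R2.lcost, ih]

theorem seeds_eq (c w : ℕ) : seeds c w = Pool.Agent.H530R2.seeds2 c w := by
  induction c generalizing w with
  | zero => rfl
  | succ c ih => simp only [seeds, Pool.Agent.H530R2.seeds2, ih, cost_eq]

/-- For all `c, w, n, D` the explicit set `points n (seeds c w) D ⊆ ℤ^n` has at most
`((D+1)(nD+1))^(seeds c w)` elements, with coordinates of polynomial bit length, and hits every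
nonzero polynomial of total degree at most `D` in `n` variables which divides a nonzero product of
any number of polynomials each of which is a sum of `c` ROABPs of width `w` in arbitrary orders.
For a single program (`c = 1`) the exponent is `w²(w+1)/2 + 2w + 1`. -/
theorem result (c w n D : ℕ) :
    seeds 1 w = w ^ 2 * (w + 1) / 2 + 2 * w + 1 ∧
    (points n (seeds c w) D).card ≤ ((D + 1) * (n * D + 1)) ^ seeds c w ∧
    (∀ p ∈ points n (seeds c w) D, ∀ i,
      |p i| ≤ ((seeds c w * D * (n * D + n) ^ (n - 1) : ℕ) : ℤ)) ∧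
    ∀ (f : MvPolynomial (Fin n) ℂ) (r : ℕ) (g : Fin r → MvPolynomial (Fin n) ℂ),
      (∀ j, IsSumROABP c w (g j)) → (∏ j, g j) ≠ 0 → f ∣ ∏ j, g j → f.totalDegree ≤ D →
      ∃ p ∈ points n (seeds c w) D, MvPolynomial.eval (fun i => (p i : ℂ)) f ≠ 0 := by
  refine ⟨?_, ?_, ?_, ?_⟩
  · have key : ∀ s ≤ w, 2 * cost w s + w * (s * s) = 2 * w * w * s + w * s + 4 * s := by
      intro s
      induction s with
      | zero => intro _; simp [cost]
      | succ s ih =>
        intro hs
        have := ih (by omega)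
        obtain ⟨d, hd⟩ := Nat.exists_eq_add_of_le hs
        subst hd
        simp only [cost]
        have e1 : s + 1 + d - s = d + 1 := by omega
        rw [e1]
        nlinarith
    have h1 := key w le_rfl
    have h2 : 2 * cost w w = w ^ 2 * (w + 1) + 4 * w := by nlinarith
    have h3 : seeds 1 w = cost w w + 1 := by simp [seeds]
    rw [h3]
    omega
  · exact Pool.Agent.H530R2.hitSet_card n _ D
  · exact fun p hp i => Pool.Agent.H530R2.hitSet_bound n _ D p hp i
  · intro f r g hg h0 hdvd hD
    refine Pool.Agent.H530R2.exists_hit n (seeds c w) D f hD ?_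
    have hprime := Pool.Agent.H530R2.genI_prime (fun i : Fin n => ((i.val : ℕ) : ℂ)) (seeds c w)
    intro hmem
    have hmem2 : (∏ j, g j) ∈ Pool.Agent.H530R2.genI (fun i : Fin n => ((i.val : ℕ) : ℂ))
        (seeds c w) := Ideal.mem_of_dvd _ hdvd hmem
    obtain ⟨j, _, hj⟩ := (Ideal.IsPrime.prod_mem_iff (s := Finset.univ)).1 hmem2
    apply h0
    apply Finset.prod_eq_zero (Finset.mem_univ j)
    obtain ⟨A, hA, hsum⟩ := hg j
    choose σs hσs using hA
    rw [seeds_eq] at hj
    exact Pool.Agent.H530R2.sumRO2_eq_zero (fun i : Fin n => ((i.val : ℕ) : ℂ))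
      (Pool.Agent.H530R2.nodes_injective n) c w σs (g j)
      ⟨A, fun i => isRO_of_isROABP (hσs i), hsum⟩ hj

end Pool.Agent.Results.MP_c2aa42_lc.ConstWidthROABP
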