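import Mathlib
import Pool.Agent.H530R2.Gen2

/-!
# Explicit hitting sets for formulas over branching programs, with boundedly many reads

We give explicit hitting sets for arithmetic formulas of any size and depth whose leaves are
computed by oblivious algebraic branching programs of width `w` (or nested such programs, to
constant depth), where every program reads every variable at most `w` times, in any order, and
every variable occurs in at most `w` leaves. No multilinearity is assumed. For all constants, the
size of the hitting set is polynomial with exponent `O(ρ + 1)`, where the rank `ρ` is the Strahler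
number of the formula when only product gates count. It is at most the logarithm of the number of
leaves; hence the hitting set has always quasi-polynomial size, and it has polynomial size for
formulas of bounded rank. More generally the theorem treats polynomials in `w` such formulas, and
factors of products of such polynomials.

The proof: by induction on the number of reads and on the rank, values of formulas are hit
(`ValR.all`): descending along a path whose siblings have smaller rank or do not depend on the
variables read for the last time, one finds a variable such that the derivative of the value is a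
product of values of formulas of smaller rank and of a minor of formulas with fewer reads. The
minors of boundedly many formulas with fewer reads are hit by the theorem `TreeSeeds.all`, whose
hypothesis on the partial derivatives of the gates is provided by the induction; its hypothesis on
the leaves is the theorem on nested programs reading every variable boundedly often of
`MP_e2be99_lc.BoundedReadPrograms`.
-/

namespace Pool.Agent.Results.MP_c2aa42_lc.ReadKFormulas

open MvPolynomial

/-- Formulas in `n` variables: the leaves are polynomials, a gate computes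
`c₀ + c₁ a + c₂ b + c₃ a b` from the values `a`, `b` of its arguments (in particular `a + b`,
`a - b` and `a b`). -/
inductive Formula (n : ℕ) : Type
  | leaf (g : MvPolynomial (Fin n) ℂ) : Formula n
  | gate (c₀ c₁ c₂ c₃ : ℂ) (a b : Formula n) : Formula n

variable {n : ℕ}

/-- the polynomial computed by a formula -/
noncomputable def Formula.value : Formula n → MvPolynomial (Fin n) ℂ
  | .leaf g => g
  | .gate c₀ c₁ c₂ c₃ a b => C c₀ + C c₁ * a.value + C c₂ * b.value + C c₃ * (a.value * b.value)

open Classical in
/-- the number of leaves in which the variable `x` occurs -/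
noncomputable def Formula.reads : Formula n → Fin n → ℕ
  | .leaf g, x => if x ∈ g.vars then 1 else 0
  | .gate _ _ _ _ a b, x => a.reads x + b.reads x

/-- all leaves have the property `L` -/
def Formula.Leaves (L : MvPolynomial (Fin n) ℂ → Prop) : Formula n → Prop
  | .leaf g => L g
  | .gate _ _ _ _ a b => a.Leaves L ∧ b.Leaves L

/-- the number of leaves -/
def Formula.size : Formula n → ℕ
  | .leaf _ => 1
  | .gate _ _ _ _ a b => a.size + b.size

open Classical in
/-- The rank of a formula: `0` for leaves. At a gate with `c₃ = 0` it is the maximum of the ranks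
of the arguments. At a gate with `c₃ ≠ 0` it is this maximum if the ranks of the arguments are
different, and it is larger by one if they are equal. -/
noncomputable def Formula.rank : Formula n → ℕ
  | .leaf _ => 0
  | .gate _ _ _ c₃ a b =>
    if c₃ ≠ 0 ∧ a.rank = b.rank then a.rank + 1 else max a.rank b.rank

/-- The contents of `u` registers after `b` steps. The registers start with the constants `c₀`;
step `b` multiplies the vector of the contents by the matrix `M b`. -/
noncomputable def contents {n u : ℕ} (c₀ : Fin u → ℂ)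
    (M : ℕ → Matrix (Fin u) (Fin u) (MvPolynomial (Fin n) ℂ)) : ℕ → Fin u → MvPolynomial (Fin n) ℂ
  | 0 => fun j => C (c₀ j)
  | b + 1 => Matrix.vecMul (contents c₀ M b) (M b)

/-- `Abp w s D f`: the polynomial `f` is computed with depth `D`.
* Depth `0` (leaves): univariate polynomials, and polynomials which have at most `2 ^ s` monomials
  or all of whose monomials involve at most `s` variables, and in which every variable occurs with
  at most `w` different exponents (for instance those of degree less than `w` in each variable).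
* `program` (depth `D + 1`): a polynomial `P` in the contents of the at most `w` registers of a
  linear program of any length `R`, whose matrices have entries of depth `D`, where every variable
  occurs in at most `w` of the matrices `M 0, …, M (R - 1)`. -/
inductive Abp {n : ℕ} (w s : ℕ) : ℕ → MvPolynomial (Fin n) ℂ → Prop
  | univariate (p : Polynomial ℂ) (i : Fin n) : Abp w s 0 (Polynomial.aeval (X i) p)
  | leaf {f : MvPolynomial (Fin n) ℂ} :
      (f.support.card ≤ 2 ^ s ∨ ∀ a ∈ f.support, a.support.card ≤ s) →
      (∀ i, (f.support.image fun a => a i).card ≤ w) → Abp w s 0 f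
  | program {D u : ℕ} (c₀ : Fin u → ℂ)
      (M : ℕ → Matrix (Fin u) (Fin u) (MvPolynomial (Fin n) ℂ)) (R : ℕ)
      (P : MvPolynomial (Fin u) ℂ) : u ≤ w →
      (∀ x, ((Finset.range R).filter fun b => ∃ i j, x ∈ (M b i j).vars).card ≤ w) →
      (∀ b i j, Abp w s D (M b i j)) → Abp w s (D + 1) (aeval (contents c₀ M R) P)

/-- a polynomial in `w` formulas of rank at most `t` over leaves of depth `D`, where every variable
occurs in at most `w` leaves of each formula -/
def Composite (w s D t : ℕ) (g : MvPolynomial (Fin n) ℂ) : Prop :=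
  ∃ (E : Fin w → Formula n) (P : MvPolynomial (Fin w) ℂ),
    (∀ i, (E i).Leaves (Abp w s D) ∧ (∀ x, (E i).reads x ≤ w) ∧ (E i).rank ≤ t) ∧
      g = aeval (fun i => (E i).value) P

/-- The point with seeds `y, z ∈ ℕ^m`: its `i`-th coordinate is
`∑_l y_l ∏_{k ≠ i} (z_l - k)` (the Shpilka–Volkovich generator with nodes `0, …, n-1`). -/
def point (n m : ℕ) (y z : Fin m → ℕ) : Fin n → ℤ :=
  fun i => ∑ l : Fin m, (y l : ℤ) * ∏ k ∈ Finset.univ.erase i, ((z l : ℤ) - (k.val : ℤ))

/-- The explicit set of all points with seeds `y ∈ {0,…,d}^m`, `z ∈ {0,…,nd}^m`. -/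
def points (n m d : ℕ) : Finset (Fin n → ℤ) :=
  ((Fintype.piFinset fun _ : Fin m => Finset.range (d + 1)) ×ˢ
    (Fintype.piFinset fun _ : Fin m => Finset.range (n * d + 1))).image
    fun yz => point n m yz.1 yz.2

/-- The oblivious branching program `u ⬝ M_0(x_{a 0}) M_1(x_{a 1}) ⋯ M_{l-1}(x_{a (l-1)}) ⬝ v` of
width `w`, with matrices of univariate polynomials, which reads the variables in the order
`a 0, a 1, …, a (l-1)`. -/
noncomputable def oblivious {n w l : ℕ} (a : Fin l → Fin n)
    (M : Fin l → Matrix (Fin w) (Fin w) (Polynomial ℂ)) (u v : Fin w → ℂ) :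
    MvPolynomial (Fin n) ℂ :=
  ∑ i, ∑ j, C (u i) * (List.ofFn fun t : Fin l =>
    (M t).map (Polynomial.aeval (X (a t) : MvPolynomial (Fin n) ℂ))).prod i j * C (v j)

open Pool.Agent.H530R2

/-- the families of classes -/
noncomputable def famD : ℕ → Fam ℂ
  | 0 => baseFam ℂ
  | D + 1 => (famD D).next

/-- the parameter of the classes -/
noncomputable def bd (w : ℕ) : ℕ → ℕ
  | 0 => 1
  | D + 1 => bd w D + w * w + w

/-- the number of coefficients -/
def nc (w k : ℕ) : ℕ → ℕ
  | 0 => (w + 1) ^ k
  | D + 1 => (k * w) * (w * w + w * w * nc w k D) + w * w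

theorem contents_eq {n u : ℕ} (c₀ : Fin u → ℂ)
    (M : ℕ → Matrix (Fin u) (Fin u) (MvPolynomial (Fin n) ℂ)) (b : ℕ) :
    contents c₀ M b = lin (fun j => C (c₀ j)) M b := by
  induction b with
  | zero => rfl
  | succ b ih => simp only [contents, lin, ih]

theorem abp_mem {n w s D k : ℕ} {f : MvPolynomial (Fin n) ℂ} (h : Abp w s D f) :
    f ∈ (famD D).K s n (bd w D) ∧
      ∀ A : Finset (Fin n), A.card ≤ k → Gn ((famD D).K s n (bd w D)) A (nc w k D) f := by
  classical
  have hsub : ∀ g : MvPolynomial (Fin n) ℂ, LS (s + 1) 1 g → g ∈ (famD 0).K s n (bd w 0) :=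
    fun g hg => Pol.single le_rfl hg
  induction h with
  | univariate p i =>
    have hs : ∀ x ∈ (Polynomial.aeval (X i : MvPolynomial (Fin n) ℂ) p).support,
        x.support ⊆ {i} := by
      intro x hx
      rw [Polynomial.aeval_eq_sum_range] at hx
      obtain ⟨e, _, he⟩ := Finset.mem_biUnion.1 (support_sum hx)
      have h1 := support_smul he
      rw [X_pow_eq_monomial] at h1
      rw [Finset.mem_singleton.1 (support_monomial_subset h1)]
      exact Finsupp.support_single_subset
    have hLS : LS (s + 1) 1 (Polynomial.aeval (X i : MvPolynomial (Fin n) ℂ) p) := by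
      refine ⟨{0}, by rw [Finset.card_singleton]; exact Nat.one_le_two_pow, fun x hx =>
        ⟨0, Finset.mem_singleton_self _, x, (zero_add x).symm, ?_⟩⟩
      refine (Finset.card_le_card (hs x hx)).trans ?_
      rw [Finset.card_singleton]
      omega
    refine ⟨hsub _ hLS, fun A hA => ?_⟩
    have hsupp : Polynomial.aeval (X i : MvPolynomial (Fin n) ℂ) p ∈
        supported ℂ ({i} : Set (Fin n)) := by
      rw [mem_supported]
      intro x hx
      obtain ⟨e, he, hxe⟩ := mem_vars x |>.1 (Finset.mem_coe.1 hx)
      exact Finset.mem_singleton.1 (hs e he hxe)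
    by_cases hi : i ∈ A
    · exact Gn.supp (supported_mono (by
        rintro x rfl
        exact Finset.mem_coe.2 hi) hsupp)
    · refine Gn.self (hsub _ hLS) (supported_mono ?_ hsupp) ?_
      · rintro x rfl
        exact hi
      · exact Nat.one_le_pow _ _ (Nat.succ_pos w)
  | @leaf f hf hw =>
    have hLS : LS (s + 1) 1 f := by
      rcases hf with hf | hf
      · refine ⟨f.support, ?_, fun x hx => ⟨x, hx, 0, (add_zero x).symm, by simp⟩⟩
        exact hf.trans (Nat.pow_le_pow_right (by omega) (by omega))
      · refine ⟨{0}, by rw [Finset.card_singleton]; exact Nat.one_le_two_pow, fun x hx =>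
          ⟨0, Finset.mem_singleton_self _, x, (zero_add x).symm, ?_⟩⟩
        have := hf x hx
        omega
    refine ⟨hsub _ hLS, fun A hA => ?_⟩
    exact (leaf_gn hLS hw hA).mono (fun g hg => hsub g hg) le_rfl
  | @program D u c₀ M R P hu hocc _ ih =>
    have hmv : ∀ b x, x ∈ mv (M b) ↔ ∃ i j, x ∈ (M b i j).vars := fun b x => mem_mv
    have hκ : ∀ x, ((Finset.range R).filter fun b => x ∈ mv (M b)).card ≤ w := by
      intro x
      simp only [hmv]
      convert hocc x
    have huu : u * u ≤ w * w := Nat.mul_le_mul hu hu
    have hc : ∀ i, ∃ y, (fun j => C (c₀ j) : Fin u → MvPolynomial (Fin n) ℂ) i = C y :=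
      fun i => ⟨c₀ i, rfl⟩
    have hbd : 1 ≤ bd w D := by
      clear * -
      induction D with
      | zero => exact le_rfl
      | succ D ih => simp only [bd]; omega
    have hf : aeval (contents c₀ M R) P ∈
        Algebra.adjoin ℂ (Set.range (lin (fun j => C (c₀ j)) M R)) := by
      rw [contents_eq, Algebra.adjoin_range_eq_range_aeval]
      exact ⟨P, rfl⟩
    constructor
    · exact lin_out (κ := w) hc (fun b i j => (ih b i j).1) R hκ
        (by simp only [bd]; omega) (by simp only [bd]; omega) (by simp only [bd]; omega) hf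
    · intro A hA
      refine (Gn.lin (k := k) (κ := w) (W' := bd w (D + 1)) hc (fun b i j => (ih b i j).1) R hκ
        (by simp only [bd]; omega) (by simp only [bd]; omega) (by simp only [bd]; omega)
        (by simp only [bd]; omega) hA (fun b i j => (ih b i j).2 A hA) hf).mono
        (fun g hg => hg) ?_
      simp only [nc]
      exact Nat.add_le_add (Nat.mul_le_mul_left _
        (Nat.add_le_add huu (Nat.mul_le_mul_right _ huu))) huu

theorem oblivious_mem {n w k l : ℕ} (a : Fin l → Fin n)
    (ha : ∀ i, (Finset.univ.filter fun t => a t = i).card ≤ k)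
    (M : Fin l → Matrix (Fin w) (Fin w) (Polynomial ℂ)) (u v : Fin w → ℂ) :
    Abp (w + k) 0 1 (oblivious a M u v) := by
  classical
  set N : ℕ → Matrix (Fin w) (Fin w) (MvPolynomial (Fin n) ℂ) :=
    fun b => if h : b < l then (M ⟨b, h⟩).map
      (Polynomial.aeval (X (a ⟨b, h⟩) : MvPolynomial (Fin n) ℂ)) else 0 with hN
  have key : ∀ b : ℕ, ∀ hb : b ≤ l, ∀ j, contents u N b j =
      ∑ i, C (u i) * (List.ofFn fun t : Fin b => (M (Fin.castLE hb t)).map
        (Polynomial.aeval (X (a (Fin.castLE hb t)) : MvPolynomial (Fin n) ℂ))).prod i j := by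
    intro b
    induction b with
    | zero =>
      intro _ j
      simp only [contents, List.ofFn_zero, List.prod_nil, Matrix.one_apply]
      rw [Finset.sum_eq_single j]
      · rw [if_pos rfl, mul_one]
      · intro i _ hij
        rw [if_neg hij, mul_zero]
      · intro h
        exact absurd (Finset.mem_univ j) h
    | succ b ih =>
      intro hb j
      have hb' : b < l := hb
      have h1 : contents u N (b + 1) j = ∑ q, contents u N b q *
          Polynomial.aeval (X (a ⟨b, hb'⟩) : MvPolynomial (Fin n) ℂ) (M ⟨b, hb'⟩ q j) := by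
        simp only [contents, Matrix.vecMul, dotProduct, hN, dif_pos hb', Matrix.map_apply]
      rw [h1]
      simp only [ih (by omega : b ≤ l)]
      simp only [List.ofFn_succ', List.concat_eq_append, List.prod_append, List.prod_singleton,
        Matrix.mul_apply, Finset.mul_sum, Finset.sum_mul]
      rw [Finset.sum_comm]
      apply Finset.sum_congr rfl
      intro i _
      apply Finset.sum_congr rfl
      intro q _
      rw [mul_assoc]
      rfl
  have h2 : oblivious a M u v =
      aeval (contents u N l) (∑ j, X j * C (v j) : MvPolynomial (Fin w) ℂ) := by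
    rw [map_sum]
    unfold oblivious
    rw [Finset.sum_comm]
    apply Finset.sum_congr rfl
    intro j _
    rw [map_mul, aeval_X, key l le_rfl j, Finset.sum_mul]
    apply Finset.sum_congr rfl
    intro i _
    simp only [algHom_C]
    rfl
  have hvars : ∀ b i j, ∀ x ∈ (N b i j).vars, ∃ h : b < l, x = a ⟨b, h⟩ := by
    intro b i j x hx
    by_cases h : b < l
    · refine ⟨h, ?_⟩
      have h3 : N b i j ∈ supported ℂ ({a ⟨b, h⟩} : Set (Fin n)) := by
        simp only [hN, dif_pos h, Matrix.map_apply]
        rw [Polynomial.aeval_eq_sum_range]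
        refine Subalgebra.sum_mem _ fun e _ => Subalgebra.smul_mem _ (Subalgebra.pow_mem _ ?_ _) _
        exact X_mem_supported.2 rfl
      exact mem_supported.1 h3 (Finset.mem_coe.2 hx)
    · simp only [hN, dif_neg h, Matrix.zero_apply] at hx
      simp at hx
  rw [h2]
  refine Abp.program u N l _ (by omega) ?_ ?_
  · intro x
    refine le_trans ?_ ((ha x).trans (show k ≤ w + k by omega))
    refine le_trans (Finset.card_le_card (t := (Finset.univ.filter fun t => a t = x).image
      (fun t : Fin l => (t : ℕ))) ?_) Finset.card_image_le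
    intro b hb
    rw [Finset.mem_filter, Finset.mem_range] at hb
    obtain ⟨hb1, i, j, hij⟩ := hb
    obtain ⟨h, hx⟩ := hvars b i j x hij
    exact Finset.mem_image.2 ⟨⟨b, hb1⟩, Finset.mem_filter.2 ⟨Finset.mem_univ _, hx.symm⟩, rfl⟩
  · intro b i j
    by_cases h : b < l
    · simp only [hN, dif_pos h, Matrix.map_apply]
      exact Abp.univariate _ _
    · simp only [hN, dif_neg h, Matrix.zero_apply]
      exact Abp.leaf (Or.inl (by simp)) (fun i => by simp)

theorem abp_lift {n w s D : ℕ} (hw : 1 ≤ w) {f : MvPolynomial (Fin n) ℂ} (h : Abp w s D f) :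
    Abp w s (D + 1) f := by
  have h1 := Abp.program (w := w) (s := s) (D := D) (u := 1) (fun _ => 1) (fun _ => fun _ _ => f) 1
    (X 0) hw ?_ (fun _ _ _ => h)
  · have h2 : aeval (contents (fun _ : Fin 1 => (1 : ℂ)) (fun _ => fun _ _ => f) 1)
        (X 0 : MvPolynomial (Fin 1) ℂ) = f := by
      rw [aeval_X]
      show ∑ j : Fin 1, C (1 : ℂ) * f = f
      rw [Fin.sum_univ_one, C_1, one_mul]
    rwa [h2] at h1
  · intro x
    refine (Finset.card_filter_le _ _).trans ?_
    rw [Finset.card_range]
    exact hw

/-- the leaves as a class: their coefficients with respect to few variables are generated by few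
members of the family -/
def LfD (w s D κ : ℕ) : Set (MvPolynomial (Fin n) ℂ) :=
  {g | g ∈ (famD D).K s n (bd w D + (famD D).c0) ∧ ∀ A : Finset (Fin n), A.card ≤ κ →
    Gn ((famD D).K s n (bd w D + (famD D).c0)) A (nc w κ D) g}

theorem LfD.const {w s D κ : ℕ} (y : ℂ) : (C y : MvPolynomial (Fin n) ℂ) ∈ LfD w s D κ :=
  ⟨(famD D).const (Nat.le_add_left _ _) y, fun A _ => Gn.supp (Subalgebra.algebraMap_mem _ y)⟩

theorem abp_lf {w s D κ : ℕ} {g : MvPolynomial (Fin n) ℂ} (h : Abp w s D g) :
    g ∈ LfD w s D κ := by
  obtain ⟨h1, h2⟩ := abp_mem (k := κ) h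
  exact ⟨(famD D).mono (Nat.le_add_right _ _) h1, fun A hA =>
    (h2 A hA).mono ((famD D).mono (Nat.le_add_right _ _)) le_rfl⟩

theorem std_famD (D : ℕ) (n s : ℕ) :
    (stdVan (F := ℂ) _ (natInj n)).scale (s + 1) (Nat.le_add_left 1 s) ∈ (famD D).Ok s n := by
  induction D with
  | zero => exact std_ok n s
  | succ D ih => exact ih

/-- translation to the formulas of `Pool.Agent.H530R2` -/
noncomputable def toTr : Formula n → Tr ℂ n
  | .leaf g => .leaf g
  | .gate c₀ c₁ c₂ c₃ a b =>
    .gate (C c₀ + C c₁ * X 0 + C c₂ * X 1 + C c₃ * (X 0 * X 1)) (toTr a) (toTr b)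

theorem toTr_val (E : Formula n) : (toTr E).val = E.value := by
  induction E with
  | leaf g => rfl
  | gate c₀ c₁ c₂ c₃ a b iha ihb =>
    simp only [toTr, Tr.val, Formula.value, map_add, map_mul, algHom_C, aeval_X, iha, ihb]
    rfl

theorem toTr_occ (E : Formula n) (x : Fin n) : (toTr E).occ x = E.reads x := by
  induction E with
  | leaf g => simp only [toTr, Tr.occ, Formula.reads]
  | gate c₀ c₁ c₂ c₃ a b iha ihb => simp only [toTr, Tr.occ, Formula.reads, iha, ihb]

theorem toTr_ml (E : Formula n) : (toTr E).ML := by
  induction E with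
  | leaf g => trivial
  | gate c₀ c₁ c₂ c₃ a b iha ihb => exact ⟨iha, ihb, c₀, c₁, c₂, c₃, rfl⟩

theorem toTr_rk (E : Formula n) : (toTr E).rk = E.rank := by
  classical
  induction E with
  | leaf g => rfl
  | gate c₀ c₁ c₂ c₃ a b iha ihb =>
    simp only [toTr, Tr.rk, Formula.rank, cpr_affine, iha, ihb, stf]
    by_cases h : c₃ = 0
    · rw [if_pos h, if_neg (fun hc => hc.1 h)]
    · rw [if_neg h]
      by_cases h' : a.rank = b.rank
      · rw [if_pos h', if_pos ⟨h, h'⟩]
      · rw [if_neg h', if_neg (fun hc => h' hc.2)]

theorem toTr_lv {w s D κ : ℕ} (E : Formula n) (h : E.Leaves (Abp w s D)) :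
    (toTr E).Lv (LfD w s D κ) := by
  induction E with
  | leaf g => exact abp_lf h
  | gate c₀ c₁ c₂ c₃ a b iha ihb => exact ⟨iha h.1, ihb h.2⟩

theorem two_pow_rank (E : Formula n) : 2 ^ E.rank ≤ E.size := by
  classical
  induction E with
  | leaf g => exact le_rfl
  | gate c₀ c₁ c₂ c₃ a b iha ihb =>
    simp only [Formula.rank, Formula.size]
    split_ifs with h
    · rw [pow_succ]
      have h1 := h.2
      rw [← h1] at ihb
      omega
    · rcases le_total a.rank b.rank with h1 | h1
      · rw [max_eq_right h1]
        omega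
      · rw [max_eq_left h1]
        omega

theorem comp_polyIn {w s D t κ : ℕ} {g : MvPolynomial (Fin n) ℂ} (h : Composite w s D t g) :
    PolyIn (fun T : Tr ℂ n => T.ML ∧ T.Lv (LfD w s D κ) ∧ (∀ i, T.occ i ≤ w + 1) ∧
      T.rk ≤ t) w g := by
  obtain ⟨E, P, hE, rfl⟩ := h
  refine ⟨fun i => toTr (E i), P, fun i => ⟨toTr_ml _, toTr_lv _ (hE i).1, fun x => ?_, ?_⟩, ?_⟩
  · rw [toTr_occ]
    exact ((hE i).2.1 x).trans (Nat.le_succ w)
  · rw [toTr_rk]
    exact (hE i).2.2
  · congr 1
    congr 1
    funext i
    exact (toTr_val _).symm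

theorem comp_formula {w s D t : ℕ} (hw : 1 ≤ w) (E : Formula n) (hE : E.Leaves (Abp w s D))
    (h : ∀ x, E.reads x ≤ w) (ht : E.rank ≤ t) : Composite w s D t E.value :=
  ⟨fun _ => E, X ⟨0, hw⟩, fun _ => ⟨hE, h, ht⟩, by rw [aeval_X]⟩

/-- For all bounds `w, D` there is `m` such that for all `n, d, s, t` the explicit set
`points n (m (t + 1) (s + 1)) d ⊆ ℤ^n` with at most `((d+1)(nd+1))^(m (t+1) (s+1))` elements hits
every polynomial of total degree at most `d` in `n` variables that divides a product of nonzero
members of `Composite w s D t`. This class contains the values of all formulas of rank at most `t`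
over leaves of depth `D` where every variable occurs in at most `w` leaves; the rank is at most the
logarithm of the number of leaves; and oblivious branching programs of constant width which read
every variable boundedly often, in any order, have depth `1`. -/
theorem result :
    (∀ w D : ℕ, ∃ m : ℕ, ∀ n d s t : ℕ,
      (points n (m * (t + 1) * (s + 1)) d).card ≤
        ((d + 1) * (n * d + 1)) ^ (m * (t + 1) * (s + 1)) ∧
      (∀ p ∈ points n (m * (t + 1) * (s + 1)) d, ∀ i,
        |p i| ≤ ((m * (t + 1) * (s + 1) * d * (n * d + n) ^ (n - 1) : ℕ) : ℤ)) ∧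
      ∀ (f : MvPolynomial (Fin n) ℂ) (N : ℕ) (F : Fin N → MvPolynomial (Fin n) ℂ),
        (∀ j, Composite w s D t (F j)) → (∀ j, F j ≠ 0) → f ∣ ∏ j, F j → f.totalDegree ≤ d →
        ∃ p ∈ points n (m * (t + 1) * (s + 1)) d,
          MvPolynomial.eval (fun i => (p i : ℂ)) f ≠ 0) ∧
    (∀ (n w s D t : ℕ) (E : Formula n), 1 ≤ w → E.Leaves (Abp w s D) →
      (∀ x, E.reads x ≤ w) → E.rank ≤ t → Composite w s D t E.value) ∧
    (∀ (n : ℕ) (E : Formula n), 2 ^ E.rank ≤ E.size) ∧
    (∀ (n w r l : ℕ) (a : Fin l → Fin n) (M : Fin l → Matrix (Fin w) (Fin w) (Polynomial ℂ))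
      (u v : Fin w → ℂ), (∀ i, (Finset.univ.filter fun t => a t = i).card ≤ r) →
      Abp (w + r) 0 1 (oblivious a M u v)) ∧
    ∀ (n w s D : ℕ) (f : MvPolynomial (Fin n) ℂ), 1 ≤ w → Abp w s D f → Abp w s (D + 1) f := by
  refine ⟨?_, fun n w s D t E hw hE h ht => comp_formula hw E hE h ht,
    fun n E => two_pow_rank E, fun n w r l a M u v ha => oblivious_mem a ha M u v,
    fun n w s D f hw h => abp_lift hw h⟩
  intro w D
  obtain ⟨m, hm⟩ := rank_hit2 (F := ℂ) (famD D) (std_famD D) 1 (w + 1) w (nc w 1 D)
    (bd w D + (famD D).c0) (Nat.succ_pos w)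
  refine ⟨m, fun n d s t => ⟨hitSet_card n _ d, fun p hp i => hitSet_bound n _ d p hp i, ?_⟩⟩
  intro f N F hF hF0 hdvd hd
  refine exists_hit n _ d f hd ?_
  intro hf
  have h1 := Ideal.mem_of_dvd _ hdvd hf
  have hprime := genI_prime (fun i : Fin n => ((i.val : ℕ) : ℂ)) (m * (t + 1) * (s + 1))
  rw [Ideal.IsPrime.prod_mem_iff] at h1
  obtain ⟨j, _, h1⟩ := h1
  refine hm n s t (LfD w s D 1) (fun g hg => hg.1) (fun y => LfD.const y)
    (fun A hA g hg => hg.2 A hA) (F j) ?_ (hF0 j) h1
  refine ⟨1, fun _ => {F j}, fun _ g hg => ?_, fun u hu => ?_, ?_⟩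
  · rw [Multiset.mem_singleton.1 hg]
    exact comp_polyIn (hF j)
  · have h2 := Fintype.card_le_of_injective u (fun a b hab => hu.injective (by rw [hab]))
    rw [Fintype.card_fin, Fintype.card_fin] at h2
    omega
  · refine Algebra.subset_adjoin ⟨0, ?_⟩
    exact Multiset.prod_singleton _

end Pool.Agent.Results.MP_c2aa42_lc.ReadKFormulas
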