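import Mathlib
import Pool.Agent.H530R2.Seg2

/-!
# Explicit hitting sets for sums of products of branching programs of constant width and read

Polynomial size hitting sets, for all constants, for sums of `k` products of any number of
factors, where every factor is computed by an oblivious algebraic branching program of width `w`
which reads every variable at most `w` times, each factor in its own order of the reads. The
entries of the matrices of the programs may again be polynomials computed by such programs, to
constant depth, over polynomials of bounded degree or sparse polynomials with few exponents of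
every variable. `Sums of k products` is generalised to polynomials in products, of transcendence
degree at most `k`, and to factors of products of such polynomials.

The proof combines the local-to-global principle for the algebraic independence of products of
`Pool.Agent.H626R2.Loc` (helper626 and others, see `MP_e2be99_lc.UnboundedProducts`) with the
theorem on programs reading every variable boundedly often of `Pool.Agent.H530R2`
(`MP_e2be99_lc.BoundedReadPrograms`): the coefficients of a factor with respect to few variables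
are generated by the entries of the few segments of its program between the reads of these
variables.
-/

namespace Pool.Agent.Results.MP_c2aa42_lc.SumsOfProducts

open MvPolynomial

/-- The contents of `u` registers after `b` steps. The registers start with the constants `c₀`;
step `b` multiplies the vector of the contents by the matrix `M b`. -/
noncomputable def contents {n u : ℕ} (c₀ : Fin u → ℂ)
    (M : ℕ → Matrix (Fin u) (Fin u) (MvPolynomial (Fin n) ℂ)) : ℕ → Fin u → MvPolynomial (Fin n) ℂ
  | 0 => fun j => C (c₀ j)
  | b + 1 => Matrix.vecMul (contents c₀ M b) (M b)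

/-- `Abp w s D f`: the polynomial `f` is computed with depth `D`.
* Depth `0` (leaves): univariate polynomials, and polynomials which have at most `2 ^ s` monomials
  or all of whose monomials involve at most `s` variables, and in which every variable occurs with
  at most `w` different exponents (for instance those of degree less than `w` in each variable).
* `program` (depth `D + 1`): a polynomial `P` in the contents of the at most `w` registers of a
  linear program of any length `R`, whose matrices have entries of depth `D`, where every variable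
  occurs in at most `w` of the matrices `M 0, …, M (R - 1)`. -/
inductive Abp {n : ℕ} (w s : ℕ) : ℕ → MvPolynomial (Fin n) ℂ → Prop
  | univariate (p : Polynomial ℂ) (i : Fin n) : Abp w s 0 (Polynomial.aeval (X i) p)
  | leaf {f : MvPolynomial (Fin n) ℂ} :
      (f.support.card ≤ 2 ^ s ∨ ∀ a ∈ f.support, a.support.card ≤ s) →
      (∀ i, (f.support.image fun a => a i).card ≤ w) → Abp w s 0 f
  | program {D u : ℕ} (c₀ : Fin u → ℂ)
      (M : ℕ → Matrix (Fin u) (Fin u) (MvPolynomial (Fin n) ℂ)) (R : ℕ)
      (P : MvPolynomial (Fin u) ℂ) : u ≤ w →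
      (∀ x, ((Finset.range R).filter fun b => ∃ i j, x ∈ (M b i j).vars).card ≤ w) →
      (∀ b i j, Abp w s D (M b i j)) → Abp w s (D + 1) (aeval (contents c₀ M R) P)

/-- `f` is a polynomial in finitely many products of any number of members of `Abp w s D`, no
`k + 1` of which are algebraically independent. -/
def BddTr {n : ℕ} (w s D k : ℕ) (f : MvPolynomial (Fin n) ℂ) : Prop :=
  ∃ (N : ℕ) (T : Fin N → Multiset (MvPolynomial (Fin n) ℂ)), (∀ i, ∀ g ∈ T i, Abp w s D g) ∧
    (∀ u : Fin (k + 1) → Fin N, ¬ AlgebraicIndependent ℂ (fun a => (T (u a)).prod)) ∧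
    f ∈ Algebra.adjoin ℂ (Set.range fun i => (T i).prod)

/-- The oblivious branching program `u ⬝ M_0(x_{a 0}) M_1(x_{a 1}) ⋯ M_{l-1}(x_{a (l-1)}) ⬝ v` of
width `w`, with matrices of univariate polynomials, which reads the variables in the order
`a 0, a 1, …, a (l-1)`. -/
noncomputable def oblivious {n w l : ℕ} (a : Fin l → Fin n)
    (M : Fin l → Matrix (Fin w) (Fin w) (Polynomial ℂ)) (u v : Fin w → ℂ) :
    MvPolynomial (Fin n) ℂ :=
  ∑ i, ∑ j, C (u i) * (List.ofFn fun t : Fin l =>
    (M t).map (Polynomial.aeval (X (a t) : MvPolynomial (Fin n) ℂ))).prod i j * C (v j)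

/-- The point with seeds `y, z ∈ ℕ^m`: its `i`-th coordinate is
`∑_l y_l ∏_{k ≠ i} (z_l - k)` (the Shpilka–Volkovich generator with nodes `0, …, n-1`). -/
def point (n m : ℕ) (y z : Fin m → ℕ) : Fin n → ℤ :=
  fun i => ∑ l : Fin m, (y l : ℤ) * ∏ k ∈ Finset.univ.erase i, ((z l : ℤ) - (k.val : ℤ))

/-- The explicit set of all points with seeds `y ∈ {0,…,d}^m`, `z ∈ {0,…,nd}^m`. -/
def points (n m d : ℕ) : Finset (Fin n → ℤ) :=
  ((Fintype.piFinset fun _ : Fin m => Finset.range (d + 1)) ×ˢ
    (Fintype.piFinset fun _ : Fin m => Finset.range (n * d + 1))).image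
    fun yz => point n m yz.1 yz.2

open Pool.Agent.H530R2

/-- the families of classes -/
noncomputable def famD : ℕ → Fam ℂ
  | 0 => baseFam ℂ
  | D + 1 => (famD D).next

/-- the parameter of the classes -/
noncomputable def bd (w : ℕ) : ℕ → ℕ
  | 0 => 1
  | D + 1 => bd w D + w * w + w

/-- the number of coefficients -/
def nc (w k : ℕ) : ℕ → ℕ
  | 0 => (w + 1) ^ k
  | D + 1 => (k * w) * (w * w + w * w * nc w k D) + w * w

theorem contents_eq {n u : ℕ} (c₀ : Fin u → ℂ)
    (M : ℕ → Matrix (Fin u) (Fin u) (MvPolynomial (Fin n) ℂ)) (b : ℕ) :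
    contents c₀ M b = lin (fun j => C (c₀ j)) M b := by
  induction b with
  | zero => rfl
  | succ b ih => simp only [contents, lin, ih]

theorem abp_mem {n w s D k : ℕ} {f : MvPolynomial (Fin n) ℂ} (h : Abp w s D f) :
    f ∈ (famD D).K s n (bd w D) ∧
      ∀ A : Finset (Fin n), A.card ≤ k → Gn ((famD D).K s n (bd w D)) A (nc w k D) f := by
  classical
  have hsub : ∀ g : MvPolynomial (Fin n) ℂ, LS (s + 1) 1 g → g ∈ (famD 0).K s n (bd w 0) :=
    fun g hg => Pol.single le_rfl hg
  induction h with
  | univariate p i =>
    have hs : ∀ x ∈ (Polynomial.aeval (X i : MvPolynomial (Fin n) ℂ) p).support,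
        x.support ⊆ {i} := by
      intro x hx
      rw [Polynomial.aeval_eq_sum_range] at hx
      obtain ⟨e, _, he⟩ := Finset.mem_biUnion.1 (support_sum hx)
      have h1 := support_smul he
      rw [X_pow_eq_monomial] at h1
      rw [Finset.mem_singleton.1 (support_monomial_subset h1)]
      exact Finsupp.support_single_subset
    have hLS : LS (s + 1) 1 (Polynomial.aeval (X i : MvPolynomial (Fin n) ℂ) p) := by
      refine ⟨{0}, by rw [Finset.card_singleton]; exact Nat.one_le_two_pow, fun x hx =>
        ⟨0, Finset.mem_singleton_self _, x, (zero_add x).symm, ?_⟩⟩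
      refine (Finset.card_le_card (hs x hx)).trans ?_
      rw [Finset.card_singleton]
      omega
    refine ⟨hsub _ hLS, fun A hA => ?_⟩
    have hsupp : Polynomial.aeval (X i : MvPolynomial (Fin n) ℂ) p ∈
        supported ℂ ({i} : Set (Fin n)) := by
      rw [mem_supported]
      intro x hx
      obtain ⟨e, he, hxe⟩ := mem_vars x |>.1 (Finset.mem_coe.1 hx)
      exact Finset.mem_singleton.1 (hs e he hxe)
    by_cases hi : i ∈ A
    · exact Gn.supp (supported_mono (by
        rintro x rfl
        exact Finset.mem_coe.2 hi) hsupp)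
    · refine Gn.self (hsub _ hLS) (supported_mono ?_ hsupp) ?_
      · rintro x rfl
        exact hi
      · exact Nat.one_le_pow _ _ (Nat.succ_pos w)
  | @leaf f hf hw =>
    have hLS : LS (s + 1) 1 f := by
      rcases hf with hf | hf
      · refine ⟨f.support, ?_, fun x hx => ⟨x, hx, 0, (add_zero x).symm, by simp⟩⟩
        exact hf.trans (Nat.pow_le_pow_right (by omega) (by omega))
      · refine ⟨{0}, by rw [Finset.card_singleton]; exact Nat.one_le_two_pow, fun x hx =>
          ⟨0, Finset.mem_singleton_self _, x, (zero_add x).symm, ?_⟩⟩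
        have := hf x hx
        omega
    refine ⟨hsub _ hLS, fun A hA => ?_⟩
    exact (leaf_gn hLS hw hA).mono (fun g hg => hsub g hg) le_rfl
  | @program D u c₀ M R P hu hocc _ ih =>
    have hmv : ∀ b x, x ∈ mv (M b) ↔ ∃ i j, x ∈ (M b i j).vars := fun b x => mem_mv
    have hκ : ∀ x, ((Finset.range R).filter fun b => x ∈ mv (M b)).card ≤ w := by
      intro x
      simp only [hmv]
      convert hocc x
    have huu : u * u ≤ w * w := Nat.mul_le_mul hu hu
    have hc : ∀ i, ∃ y, (fun j => C (c₀ j) : Fin u → MvPolynomial (Fin n) ℂ) i = C y :=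
      fun i => ⟨c₀ i, rfl⟩
    have hbd : 1 ≤ bd w D := by
      clear * -
      induction D with
      | zero => exact le_rfl
      | succ D ih => simp only [bd]; omega
    have hf : aeval (contents c₀ M R) P ∈
        Algebra.adjoin ℂ (Set.range (lin (fun j => C (c₀ j)) M R)) := by
      rw [contents_eq, Algebra.adjoin_range_eq_range_aeval]
      exact ⟨P, rfl⟩
    constructor
    · exact lin_out (κ := w) hc (fun b i j => (ih b i j).1) R hκ
        (by simp only [bd]; omega) (by simp only [bd]; omega) (by simp only [bd]; omega) hf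
    · intro A hA
      refine (Gn.lin (k := k) (κ := w) (W' := bd w (D + 1)) hc (fun b i j => (ih b i j).1) R hκ
        (by simp only [bd]; omega) (by simp only [bd]; omega) (by simp only [bd]; omega)
        (by simp only [bd]; omega) hA (fun b i j => (ih b i j).2 A hA) hf).mono
        (fun g hg => hg) ?_
      simp only [nc]
      exact Nat.add_le_add (Nat.mul_le_mul_left _
        (Nat.add_le_add huu (Nat.mul_le_mul_right _ huu))) huu

theorem oblivious_mem {n w k l : ℕ} (a : Fin l → Fin n)
    (ha : ∀ i, (Finset.univ.filter fun t => a t = i).card ≤ k)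
    (M : Fin l → Matrix (Fin w) (Fin w) (Polynomial ℂ)) (u v : Fin w → ℂ) :
    Abp (w + k) 0 1 (oblivious a M u v) := by
  classical
  set N : ℕ → Matrix (Fin w) (Fin w) (MvPolynomial (Fin n) ℂ) :=
    fun b => if h : b < l then (M ⟨b, h⟩).map
      (Polynomial.aeval (X (a ⟨b, h⟩) : MvPolynomial (Fin n) ℂ)) else 0 with hN
  have key : ∀ b : ℕ, ∀ hb : b ≤ l, ∀ j, contents u N b j =
      ∑ i, C (u i) * (List.ofFn fun t : Fin b => (M (Fin.castLE hb t)).map
        (Polynomial.aeval (X (a (Fin.castLE hb t)) : MvPolynomial (Fin n) ℂ))).prod i j := by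
    intro b
    induction b with
    | zero =>
      intro _ j
      simp only [contents, List.ofFn_zero, List.prod_nil, Matrix.one_apply]
      rw [Finset.sum_eq_single j]
      · rw [if_pos rfl, mul_one]
      · intro i _ hij
        rw [if_neg hij, mul_zero]
      · intro h
        exact absurd (Finset.mem_univ j) h
    | succ b ih =>
      intro hb j
      have hb' : b < l := hb
      have h1 : contents u N (b + 1) j = ∑ q, contents u N b q *
          Polynomial.aeval (X (a ⟨b, hb'⟩) : MvPolynomial (Fin n) ℂ) (M ⟨b, hb'⟩ q j) := by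
        simp only [contents, Matrix.vecMul, dotProduct, hN, dif_pos hb', Matrix.map_apply]
      rw [h1]
      simp only [ih (by omega : b ≤ l)]
      simp only [List.ofFn_succ', List.concat_eq_append, List.prod_append, List.prod_singleton,
        Matrix.mul_apply, Finset.mul_sum, Finset.sum_mul]
      rw [Finset.sum_comm]
      apply Finset.sum_congr rfl
      intro i _
      apply Finset.sum_congr rfl
      intro q _
      rw [mul_assoc]
      rfl
  have h2 : oblivious a M u v =
      aeval (contents u N l) (∑ j, X j * C (v j) : MvPolynomial (Fin w) ℂ) := by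
    rw [map_sum]
    unfold oblivious
    rw [Finset.sum_comm]
    apply Finset.sum_congr rfl
    intro j _
    rw [map_mul, aeval_X, key l le_rfl j, Finset.sum_mul]
    apply Finset.sum_congr rfl
    intro i _
    simp only [algHom_C]
    rfl
  have hvars : ∀ b i j, ∀ x ∈ (N b i j).vars, ∃ h : b < l, x = a ⟨b, h⟩ := by
    intro b i j x hx
    by_cases h : b < l
    · refine ⟨h, ?_⟩
      have h3 : N b i j ∈ supported ℂ ({a ⟨b, h⟩} : Set (Fin n)) := by
        simp only [hN, dif_pos h, Matrix.map_apply]
        rw [Polynomial.aeval_eq_sum_range]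
        refine Subalgebra.sum_mem _ fun e _ => Subalgebra.smul_mem _ (Subalgebra.pow_mem _ ?_ _) _
        exact X_mem_supported.2 rfl
      exact mem_supported.1 h3 (Finset.mem_coe.2 hx)
    · simp only [hN, dif_neg h, Matrix.zero_apply] at hx
      simp at hx
  rw [h2]
  refine Abp.program u N l _ (by omega) ?_ ?_
  · intro x
    refine le_trans ?_ ((ha x).trans (show k ≤ w + k by omega))
    refine le_trans (Finset.card_le_card (t := (Finset.univ.filter fun t => a t = x).image
      (fun t : Fin l => (t : ℕ))) ?_) Finset.card_image_le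
    intro b hb
    rw [Finset.mem_filter, Finset.mem_range] at hb
    obtain ⟨hb1, i, j, hij⟩ := hb
    obtain ⟨h, hx⟩ := hvars b i j x hij
    exact Finset.mem_image.2 ⟨⟨b, hb1⟩, Finset.mem_filter.2 ⟨Finset.mem_univ _, hx.symm⟩, rfl⟩
  · intro b i j
    by_cases h : b < l
    · simp only [hN, dif_pos h, Matrix.map_apply]
      exact Abp.univariate _ _
    · simp only [hN, dif_neg h, Matrix.zero_apply]
      exact Abp.leaf (Or.inl (by simp)) (fun i => by simp)

theorem degree_mem {n δ : ℕ} {f : MvPolynomial (Fin n) ℂ} (hf : f.totalDegree ≤ δ) :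
    Abp (δ + 1) δ 0 f := by
  refine Abp.leaf (Or.inr fun a ha => ?_) fun i => ?_
  · refine le_trans ?_ ((le_totalDegree ha).trans hf)
    rw [Finsupp.sum, Finset.card_eq_sum_ones]
    exact Finset.sum_le_sum fun i hi => Nat.one_le_iff_ne_zero.2 (Finsupp.mem_support_iff.1 hi)
  · refine (Finset.card_le_card (t := Finset.range (δ + 1)) ?_).trans (by simp)
    intro e he
    obtain ⟨a, ha, rfl⟩ := Finset.mem_image.1 he
    refine Finset.mem_range.2 (Nat.lt_succ_of_le (le_trans ?_ ((le_totalDegree ha).trans hf)))
    by_cases h : i ∈ a.support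
    · exact Finset.single_le_sum (f := fun i => a i) (fun _ _ => Nat.zero_le _) h
    · rw [Finsupp.notMem_support_iff.1 h]
      exact Nat.zero_le _

theorem bddTr_sum {n w s D k : ℕ} (T : Fin k → Multiset (MvPolynomial (Fin n) ℂ))
    (hT : ∀ i, ∀ g ∈ T i, Abp w s D g) : BddTr w s D k (∑ i, (T i).prod) := by
  refine ⟨k, T, hT, ?_, Subalgebra.sum_mem _ fun i _ => Algebra.subset_adjoin ⟨i, rfl⟩⟩
  intro u hu
  have h1 : Function.Injective u := by
    intro a b hab
    exact hu.injective (by
      show (T (u a)).prod = (T (u b)).prod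
      rw [hab])
  have h2 := Fintype.card_le_of_injective u h1
  rw [Fintype.card_fin, Fintype.card_fin] at h2
  omega

/-- For all bounds `w, D, k` there is `m` such that for all `n, d, s` the explicit set
`points n (m (s + 1)) d ⊆ ℤ^n` with at most `((d+1)(nd+1))^(m (s+1))` elements hits every
polynomial of total degree at most `d` in `n` variables that divides a product of nonzero
members of `BddTr w s D k`. This class contains all sums of `k` products, of any number of
factors, of members of `Abp w s D`; the polynomials computed by oblivious branching programs of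
width `w` which read every variable at most `r` times, in any order, belong to `Abp (w + r) 0 1`,
and the polynomials of degree at most `e` belong to `Abp (e + 1) e 0`. -/
theorem result :
    (∀ w D k : ℕ, ∃ m : ℕ, ∀ n d s : ℕ,
      (points n (m * (s + 1)) d).card ≤ ((d + 1) * (n * d + 1)) ^ (m * (s + 1)) ∧
      (∀ p ∈ points n (m * (s + 1)) d, ∀ i,
        |p i| ≤ ((m * (s + 1) * d * (n * d + n) ^ (n - 1) : ℕ) : ℤ)) ∧
      ∀ (f : MvPolynomial (Fin n) ℂ) (N : ℕ) (F : Fin N → MvPolynomial (Fin n) ℂ),
        (∀ j, BddTr w s D k (F j)) → (∀ j, F j ≠ 0) → f ∣ ∏ j, F j → f.totalDegree ≤ d →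
        ∃ p ∈ points n (m * (s + 1)) d, MvPolynomial.eval (fun i => (p i : ℂ)) f ≠ 0) ∧
    (∀ (n w s D k : ℕ) (T : Fin k → Multiset (MvPolynomial (Fin n) ℂ)),
      (∀ i, ∀ g ∈ T i, Abp w s D g) → BddTr w s D k (∑ i, (T i).prod)) ∧
    (∀ (n w r l : ℕ) (a : Fin l → Fin n) (M : Fin l → Matrix (Fin w) (Fin w) (Polynomial ℂ))
      (u v : Fin w → ℂ), (∀ i, (Finset.univ.filter fun t => a t = i).card ≤ r) →
      Abp (w + r) 0 1 (oblivious a M u v)) ∧
    ∀ (n e : ℕ) (f : MvPolynomial (Fin n) ℂ), f.totalDegree ≤ e → Abp (e + 1) e 0 f := by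
  refine ⟨?_, fun n w s D k T hT => bddTr_sum T hT,
    fun n w r l a M u v ha => oblivious_mem a ha M u v, fun n e f hf => degree_mem hf⟩
  intro w D k
  have hok : ∀ (D s n : ℕ), (stdVan _ (natInj (F := ℂ) n)).scale (s + 1) (Nat.le_add_left 1 s) ∈
      (famD D).Ok s n := by
    intro D s n
    induction D with
    | zero => exact ⟨_, stdVan_coef _ (natInj n), rfl⟩
    | succ D ih => exact ih
  obtain ⟨m, hm⟩ := (famD D).bddTr (hok D) (W := bd w D + (famD D).c0) (Nat.le_add_left _ _)
    k (nc w k D)
  refine ⟨m, fun n d s => ⟨hitSet_card n _ d, fun p hp i => hitSet_bound n _ d p hp i, ?_⟩⟩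
  intro f N F hF hF0 hdvd hd
  refine exists_hit n _ d f hd ?_
  intro hf
  have h1 := Ideal.mem_of_dvd _ hdvd hf
  have hprime := genI_prime (fun i : Fin n => ((i.val : ℕ) : ℂ)) (m * (s + 1))
  rw [Ideal.IsPrime.prod_mem_iff] at h1
  obtain ⟨j, _, h1⟩ := h1
  refine hm s n (F j) ?_ (hF0 j) h1
  obtain ⟨N', T, hT, hdep, hmem⟩ := hF j
  refine ⟨N', T, fun i g hg A hA => ?_, hdep, hmem⟩
  exact ((abp_mem (hT i g hg)).2 A hA).mono ((famD D).mono (Nat.le_add_right _ _)) le_rfl

end Pool.Agent.Results.MP_c2aa42_lc.SumsOfProducts
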